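import Pool.Agent.Q229.PL.Fin

/-!
# The pooling problem with one quality and out-degrees at most two is NP-hard

The reduction is from subset sum.  For every item there is a pool whose capacity is the item, with
an expensive private input of quality `0` and a free private input of quality `1`.  Every pool
sends its flow to two outputs: the first one pays `3`, needs quality `0` and has the target as its
capacity, the second one pays `1` and accepts everything.  The gain of a pool is a convex function
of its flow to the first output, so that the best possible value is attained only if this flow is
`0` or the whole capacity.
-/

set_option autoImplicit false

namespace Pool.Agent.Results.MP_743dc4_lc.PoolingOutNPHard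

open Pool.Agent.NPC Q229.PL

/-- Deciding whether an instance of the pooling problem with exactly one quality, in which every
input and every pool has out-degree at most two, has a feasible solution of cost at most a given
number is `NP`-hard.  If it is in `P`, then `P = NP`. -/
theorem result : NPHardP PoolOut ∧ (InPP PoolOut → ∀ L : Set (List Bool), InNP L → InP L) :=
  ⟨hardI_out.toNPHardP, fun h => NPHard.collapse hardI_out.toNPHardP h⟩

end Pool.Agent.Results.MP_743dc4_lc.PoolingOutNPHard
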